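import Mathlib

/-! Vertically rigid functions and glide reflections. -/

set_option autoImplicit false

open Cardinal

namespace Pool.Agent.Q181.VR

/-- the Euclidean plane -/
abbrev Plane : Type := EuclideanSpace ℝ (Fin 2)

/-- the graph of `f`, as a subset of the Euclidean plane -/
def graph (f : ℝ → ℝ) : Set Plane := {p | p 1 = f (p 0)}

/-- `φ` is an isometry of the plane which carries `graph (c f)` onto `graph f` -/
def Carries (f : ℝ → ℝ) (c : ℝ) (φ : Plane ≃ᵢ Plane) : Prop :=
  φ '' graph (fun x => c * f x) = graph f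

/-- `f` is vertically rigid -/
def VerticallyRigid (f : ℝ → ℝ) : Prop := ∀ c : ℝ, 0 < c → ∃ φ : Plane ≃ᵢ Plane, Carries f c φ

/-- `φ` is a translation -/
def IsTranslation (φ : Plane ≃ᵢ Plane) : Prop := ∃ v : Plane, ∀ p, φ p = p + v

/-- the map `(x, y) ↦ (x + t, s y)` for a sign `s` -/
noncomputable def mv (t s : ℝ) (p : Plane) : Plane := !₂[p 0 + t, s * p 1]

theorem mv_zero (t s : ℝ) (p : Plane) : (mv t s p) 0 = p 0 + t := rfl

theorem mv_one (t s : ℝ) (p : Plane) : (mv t s p) 1 = s * p 1 := rfl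

/-- the isometry `(x, y) ↦ (x + t, s y)`, `s = 1` or `s = -1` -/
noncomputable def glide (t s : ℝ) (hs : s * s = 1) : Plane ≃ᵢ Plane where
  toFun := mv t s
  invFun := mv (-t) s
  left_inv p := by
    ext i
    fin_cases i
    · show p 0 + t + -t = p 0
      ring
    · show s * (s * p 1) = p 1
      rw [← mul_assoc, hs, one_mul]
  right_inv p := by
    ext i
    fin_cases i
    · show p 0 + -t + t = p 0
      ring
    · show s * (s * p 1) = p 1
      rw [← mul_assoc, hs, one_mul]
  isometry_toFun := by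
    refine Isometry.of_dist_eq fun p q => ?_
    rw [EuclideanSpace.dist_eq, EuclideanSpace.dist_eq, Fin.sum_univ_two, Fin.sum_univ_two]
    congr 1
    have h1 : dist ((mv t s p) 0) ((mv t s q) 0) = dist (p 0) (q 0) := by
      rw [mv_zero, mv_zero, dist_add_right]
    have h2 : dist ((mv t s p) 1) ((mv t s q) 1) ^ 2 = dist (p 1) (q 1) ^ 2 := by
      rw [mv_one, mv_one, Real.dist_eq, Real.dist_eq, sq_abs, sq_abs]
      calc (s * p 1 - s * q 1) ^ 2 = (s * s) * (p 1 - q 1) ^ 2 := by ring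
        _ = _ := by rw [hs, one_mul]
    show dist ((mv t s p) 0) ((mv t s q) 0) ^ 2 + dist ((mv t s p) 1) ((mv t s q) 1) ^ 2 = _
    rw [h1, h2]

theorem glide_apply (t s : ℝ) (hs : s * s = 1) (p : Plane) : glide t s hs p = mv t s p := rfl

/-- a functional equation gives an isometry between the graphs -/
theorem carries {f : ℝ → ℝ} {c t s : ℝ} (hs : s * s = 1)
    (h : ∀ x, f (x + t) = s * c * f x) : Carries f c (glide t s hs) := by
  ext p
  constructor
  · rintro ⟨q, hq, rfl⟩
    have hq' : q 1 = c * f (q 0) := hq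
    show (mv t s q) 1 = f ((mv t s q) 0)
    rw [mv_one, mv_zero, h, hq']
    ring
  · intro hp
    have hp' : p 1 = f (p 0) := hp
    refine ⟨mv (-t) s p, ?_, (glide t s hs).right_inv p⟩
    show (mv (-t) s p) 1 = c * f ((mv (-t) s p) 0)
    rw [mv_one, mv_zero, hp']
    have h1 := h (p 0 + -t)
    rw [show p 0 + -t + t = p 0 by ring] at h1
    rw [h1]
    calc s * (s * c * f (p 0 + -t)) = (s * s) * (c * f (p 0 + -t)) := by ring
      _ = _ := by rw [hs, one_mul]

theorem not_translation {t : ℝ} : ¬ IsTranslation (glide t (-1) (by norm_num)) := by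
  rintro ⟨v, hv⟩
  have h0 := congrArg (fun p : Plane => p 1) (hv !₂[0, 0])
  have h1 := congrArg (fun p : Plane => p 1) (hv !₂[0, 1])
  have h0' : (-1 : ℝ) * 0 = 0 + v 1 := h0
  have h1' : (-1 : ℝ) * 1 = 1 + v 1 := h1
  linarith

theorem is_translation {t : ℝ} : IsTranslation (glide t 1 (by norm_num)) := by
  refine ⟨!₂[t, 0], fun p => ?_⟩
  ext i
  fin_cases i
  · rfl
  · show 1 * p 1 = p 1 + 0
    ring

theorem not_involutive {t s : ℝ} (hs : s * s = 1) (ht : t ≠ 0) :
    ¬ Function.Involutive (glide t s hs) := by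
  intro h
  have h0 := congrArg (fun p : Plane => p 0) (h !₂[0, 0])
  have h0' : (0 : ℝ) + t + t = 0 := h0
  apply ht
  linarith

/-- the real numbers and `ℚ × ℝ` are isomorphic as vector spaces over `ℚ` -/
theorem exists_equiv : Nonempty (ℝ ≃ₗ[ℚ] ℚ × ℝ) := by
  refine nonempty_linearEquiv_of_rank_eq ?_
  rw [rank_prod', Real.rank_rat_real, CommSemiring.rank_self]
  exact (Cardinal.add_eq_right Cardinal.aleph0_le_continuum
    (Cardinal.one_le_aleph0.trans Cardinal.aleph0_le_continuum)).symm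

/-- **Theorem.** There is a nowhere vanishing vertically rigid function, not affine, such that for
all `c > 0` the graph of `c f` is carried onto the graph of `f` both by a translation and by a glide
reflection. -/
theorem main : ∃ f : ℝ → ℝ, (¬ ∃ a b : ℝ, ∀ x, f x = a + b * x) ∧
    ∀ c : ℝ, 0 < c → (∃ t : ℝ, ∀ x, f (x + t) = c * f x) ∧
      ∃ t : ℝ, t ≠ 0 ∧ ∀ x, f (x + t) = -(c * f x) := by
  obtain ⟨e⟩ := exists_equiv
  let f : ℝ → ℝ := fun x => (-1 : ℝ) ^ ⌊(e x).1⌋ * Real.exp (e x).2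
  have hadd : ∀ (x : ℝ) (n : ℤ) (r : ℝ), f (x + e.symm ((n : ℚ), r)) =
      (-1 : ℝ) ^ n * Real.exp r * f x := by
    intro x n r
    show (-1 : ℝ) ^ ⌊(e (x + e.symm ((n : ℚ), r))).1⌋ * Real.exp (e (x + e.symm ((n : ℚ), r))).2 = _
    rw [map_add, LinearEquiv.apply_symm_apply]
    show (-1 : ℝ) ^ ⌊(e x).1 + (n : ℚ)⌋ * Real.exp ((e x).2 + r) = _
    rw [Int.floor_add_intCast, zpow_add₀ (by norm_num : (-1 : ℝ) ≠ 0), Real.exp_add]
    ring
  have hne : ∀ x, f x ≠ 0 := fun x =>
    mul_ne_zero (zpow_ne_zero _ (by norm_num)) (Real.exp_pos _).ne'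
  refine ⟨f, ?_, fun c hc => ⟨⟨e.symm (((0 : ℤ) : ℚ), Real.log c), fun x => ?_⟩,
    ⟨e.symm (((1 : ℤ) : ℚ), Real.log c), ?_, fun x => ?_⟩⟩⟩
  · rintro ⟨a, b, hab⟩
    by_cases hb : b = 0
    · have h1 := hadd 0 1 0
      rw [hab, hab 0, hb] at h1
      have h2 := hne 0
      rw [hab 0, hb] at h2
      simp only [zero_mul, add_zero, zpow_one, Real.exp_zero, mul_one, neg_mul, one_mul] at h1 h2
      apply h2
      linarith
    · apply hne (-a / b)
      rw [hab]
      field_simp
      ring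
  · rw [hadd]
    simp [Real.exp_log hc]
  · intro h
    rw [LinearEquiv.map_eq_zero_iff] at h
    have := congrArg Prod.fst h
    simp at this
  · rw [hadd]
    simp [Real.exp_log hc]

end Pool.Agent.Q181.VR
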